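import Mathlib

namespace Pool.Agent.Results.MP_97ba4e_an.Counter
open Set Filter Metric Topology BoundedContinuousFunction

/-- the median of `0`, `y` and `z` -/
def med (y z : ℝ) : ℝ := max (min 0 y) (min (max 0 y) z)

lemma med_min (y z s : ℝ) :
    |med y z| + |med y z - y| + |med y z - z| + |s - med y z| ≤ |s| + |s - y| + |s - z| := by
  unfold med
  grind

lemma med_le (y a : ℝ) : |med y (2 * a - y)| ≤ |a| := by
  unfold med
  grind

lemma med_zero (y a : ℝ) (h : 2 * |a| ≤ |y| ∨ y = 0) : med y (2 * a - y) = 0 := by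
  unfold med
  grind

abbrev V := (ℕ →ᵇ ℝ) × ℝ × ℝ

noncomputable def φ (v : ℝ × ℝ) : ℕ →ᵇ ℝ :=
  ofNormedAddCommGroupDiscrete (fun n => med (2 ^ n * v.2) (2 * v.1 - 2 ^ n * v.2)) |v.1|
    fun _ => med_le _ _

noncomputable def e (n : ℕ) : ℕ →ᵇ ℝ :=
  ofNormedAddCommGroupDiscrete (Pi.single n 1) 1 fun i => by
    rw [Pi.single_apply]; split_ifs <;> simp

lemma sum_e (s : Finset ℕ) (c : ℕ → ℝ) (i : ℕ) :
    (∑ n ∈ s, c n • e n) i = if i ∈ s then c i else 0 := by
  rw [BoundedContinuousFunction.sum_apply]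
  simp [e, Pi.single_apply]

lemma weak_cont (f : (ℕ →ᵇ ℝ) →L[ℝ] ℝ) : Continuous fun v => f (φ v) := by
  have h1 : Summable fun n => |f (e n)| := summable_of_sum_le (c := ‖f‖)
    (fun _ => abs_nonneg _) fun s => by
      have : ‖∑ n ∈ s, (SignType.sign (f (e n)) : ℝ) • e n‖ ≤ 1 := (norm_le zero_le_one).2 fun i => by
        rw [sum_e]
        split_ifs
        · rcases lt_trichotomy (f (e i)) 0 with h | h | h <;> simp [h]
        · simp
      refine le_trans (le_of_eq ?_) ((le_abs_self _).trans (f.unit_le_opNorm _ this))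
      simp only [map_sum, map_smul, smul_eq_mul, sign_mul_self]
  have h2 : ∀ v, f (φ v) = ∑' n, φ v n * f (e n) := fun v => by
    obtain ⟨N, hN⟩ : ∃ N, ∀ n ≥ N, φ v n = 0 := by
      rcases eq_or_ne v.2 0 with h | h
      · exact ⟨0, fun n _ => med_zero _ _ (Or.inr (by simp [h]))⟩
      · refine eventually_atTop.1 ((((tendsto_pow_atTop_atTop_of_one_lt (one_lt_two (α := ℝ))
          ).atTop_mul_const (abs_pos.2 h)).eventually_ge_atTop (2 * |v.1|)).mono fun n hn =>
            med_zero _ _ (Or.inl ?_))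
        rwa [abs_mul, abs_of_pos (by positivity : (0 : ℝ) < 2 ^ n)]
    have : φ v = ∑ n ∈ Finset.range N, φ v n • e n := by
      ext i
      rw [sum_e]
      split_ifs with h
      exacts [rfl, hN i (by simpa using h)]
    rw [tsum_eq_sum (s := Finset.range N) fun n hn => by rw [hN n (by simpa using hn), zero_mul]]
    conv_lhs => rw [this]
    simp only [map_sum, map_smul, smul_eq_mul]
  simp only [h2]
  refine continuous_iff_continuousAt.2 fun v => (continuousOn_tsum (s := {w | |w.1| < |v.1| + 1})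
    (fun n => Continuous.continuousOn ?_) (h1.mul_left (|v.1| + 1)) fun n w hw => ?_).continuousAt
      ((isOpen_lt (by fun_prop) continuous_const).mem_nhds (by exact lt_add_one |v.1|))
  · show Continuous fun v : ℝ × ℝ => med (2 ^ n * v.2) (2 * v.1 - 2 ^ n * v.2) * f (e n)
    unfold med
    fun_prop
  · rw [Real.norm_eq_abs, abs_mul]
    exact mul_le_mul_of_nonneg_right ((med_le _ _).trans hw.le) (abs_nonneg _)

noncomputable def T (x : V) (n : ℕ) : ℝ := (1 / 4) ^ n *
  (|x.1 n| + |x.1 n - 2 ^ n * x.2.2| + |x.1 n - (2 * x.2.1 - 2 ^ n * x.2.2)|)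

lemma T_nonneg (x : V) (n : ℕ) : 0 ≤ T x n := by unfold T; positivity

lemma T_le (x : V) (n : ℕ) : T x n ≤ 7 * ‖x‖ / 2 / 2 ^ n * 2 := by
  have h1 : |x.1 n| ≤ ‖x‖ := (x.1.norm_coe_le_norm n).trans (norm_fst_le x)
  have h2 : |x.2.1| ≤ ‖x‖ := (norm_fst_le x.2).trans (norm_snd_le x)
  have h3 : |2 ^ n * x.2.2| ≤ 2 ^ n * ‖x‖ := by
    rw [abs_mul, abs_of_pos (by positivity)]
    exact mul_le_mul_of_nonneg_left ((norm_snd_le x.2).trans (norm_snd_le x)) (by positivity)
  have h4 : ‖x‖ ≤ 2 ^ n * ‖x‖ := le_mul_of_one_le_left (norm_nonneg _) (one_le_pow₀ one_le_two)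
  have h5 : (1 / 4 : ℝ) ^ n * (7 * (2 ^ n * ‖x‖)) = 7 * ‖x‖ / 2 / 2 ^ n * 2 := by
    rw [show (1 / 4 : ℝ) = 1 / 2 * (1 / 2) by norm_num, mul_pow, one_div, inv_pow]
    field_simp
  rw [← h5]
  refine mul_le_mul_of_nonneg_left ?_ (by positivity)
  grind

lemma T_sum (x : V) : Summable (T x) :=
  .of_nonneg_of_le (T_nonneg x) (T_le x) ((summable_geometric_two' _).mul_right _)

noncomputable def N (x : V) : ℝ := max ‖x.1‖ |x.2.1| + |x.2.2| + ∑' n, T x n

lemma N_ge (x : V) : ‖x‖ ≤ N x := by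
  have h1 : 0 ≤ ∑' n, T x n := tsum_nonneg (T_nonneg x)
  have h2 := abs_nonneg x.2.1
  have h3 := abs_nonneg x.2.2
  simp only [N, Prod.norm_def, Real.norm_eq_abs]
  grind

lemma N_le (x : V) : N x ≤ 16 * ‖x‖ := by
  have h1 := (T_sum x).tsum_le_tsum (T_le x) ((summable_geometric_two' _).mul_right _)
  rw [tsum_mul_right, tsum_geometric_two'] at h1
  have h2 : |x.2.1| ≤ ‖x‖ := (norm_fst_le x.2).trans (norm_snd_le x)
  have h3 : |x.2.2| ≤ ‖x‖ := (norm_snd_le x.2).trans (norm_snd_le x)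
  have h4 := max_le (norm_fst_le x) h2
  unfold N
  linarith

lemma N_min (g : ℕ →ᵇ ℝ) (v : ℝ × ℝ) (h : g ≠ φ v) : N (φ v, v) < N (g, v) := by
  obtain ⟨i, hi⟩ := DFunLike.ne_iff.1 h
  have h1 : ∀ n, T (φ v, v) n + (1 / 4) ^ n * |g n - φ v n| ≤ T (g, v) n := fun n => by
    rw [T, ← mul_add]
    exact mul_le_mul_of_nonneg_left (med_min _ _ _) (by positivity)
  refine add_lt_add_of_le_of_lt (add_le_add_left (max_le (((norm_le (abs_nonneg _)).2 fun n =>
    med_le _ _).trans (le_max_right _ _)) (le_max_right _ _)) _)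
    ((T_sum _).tsum_lt_tsum (i := i) (fun n => le_trans (le_add_of_nonneg_right (by positivity))
      (h1 n)) (lt_of_lt_of_le (lt_add_of_pos_right _ ?_) (h1 i)) (T_sum _))
  exact mul_pos (by positivity) (abs_pos.2 (sub_ne_zero.2 hi))

/-- the renormed space -/
def E := V

noncomputable instance : AddCommGroup E := inferInstanceAs (AddCommGroup V)
noncomputable instance : Module ℝ E := inferInstanceAs (Module ℝ V)
noncomputable instance : Norm E := ⟨N⟩

lemma core : NormedSpace.Core ℝ E where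
  norm_nonneg x := (norm_nonneg (E := V) x).trans (N_ge x)
  norm_smul c (x : V) := by
    have : ∀ n, T (c • x) n = |c| * T x n := fun n => by
      simp only [T, Prod.smul_fst, Prod.smul_snd, BoundedContinuousFunction.smul_apply, smul_eq_mul]
      rw [mul_left_comm |c|, mul_add |c|, mul_add |c|, ← abs_mul, ← abs_mul, ← abs_mul]
      congr 4 <;> ring
    show N (c • x) = |c| * N x
    simp only [N, this, tsum_mul_left, Prod.smul_fst, Prod.smul_snd, smul_eq_mul, norm_smul,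
      abs_mul, Real.norm_eq_abs, mul_add, mul_max_of_nonneg _ _ (abs_nonneg c)]
  norm_triangle (x y : V) := by
    have h1 := (T_sum (x + y)).tsum_le_tsum (g := fun n => T x n + T y n) (fun n => by
      simp only [T, Prod.fst_add, Prod.snd_add, BoundedContinuousFunction.add_apply]
      rw [← mul_add]
      refine mul_le_mul_of_nonneg_left ?_ (by positivity)
      have h1 := abs_add_le (x.1 n) (y.1 n)
      have h2 := abs_add_le (x.1 n - 2 ^ n * x.2.2) (y.1 n - 2 ^ n * y.2.2)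
      have h3 := abs_add_le (x.1 n - (2 * x.2.1 - 2 ^ n * x.2.2)) (y.1 n - (2 * y.2.1 - 2 ^ n * y.2.2))
      ring_nf at h1 h2 h3 ⊢
      linarith) ((T_sum x).add (T_sum y))
    rw [(T_sum x).tsum_add (T_sum y)] at h1
    have h2 := norm_add_le x.1 y.1
    have h3 := abs_add_le x.2.1 y.2.1
    have h4 := abs_add_le x.2.2 y.2.2
    show N (x + y) ≤ N x + N y
    simp only [N, Prod.fst_add, Prod.snd_add]
    grind
  norm_eq_zero_iff (x : V) := ⟨fun h => norm_le_zero_iff.1 ((N_ge x).trans_eq h), fun h =>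
    le_antisymm ((N_le x).trans_eq (by rw [show x = (0 : V) from h, norm_zero, mul_zero]))
      ((norm_nonneg x).trans (N_ge x))⟩

noncomputable instance : NormedAddCommGroup E := .ofCore core
noncomputable instance : NormedSpace ℝ E := .ofCore core

noncomputable def iso : E ≃L[ℝ] V :=
  LinearEquiv.toContinuousLinearEquivOfBounds (E := E) (F := V) (LinearEquiv.refl ℝ V)
    1 16 (fun x => (N_ge x).trans_eq (one_mul _).symm) N_le

theorem result : ∃ (E : Type) (_ : NormedAddCommGroup E) (_ : NormedSpace ℝ E) (_ : CompleteSpace E)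
    (G : Submodule ℝ E) (π : E → E),
    (∀ x, (π x ∈ G ∧ ‖x - π x‖ = infDist x G) ∧ ∀ g ∈ G, ‖x - g‖ = infDist x G → g = π x) ∧
    Continuous (fun x : WeakSpace ℝ E => toWeakSpace ℝ E (π ((toWeakSpace ℝ E).symm x))) ∧
    ¬ Continuous π := by
  refine ⟨E, inferInstance, inferInstance, (completeSpace_congr (e := iso.toEquiv) iso.isUniformEmbedding).2
    inferInstance, LinearMap.ker (LinearMap.snd ℝ (ℕ →ᵇ ℝ) (ℝ × ℝ)),
    fun x : V => ((x.1 - φ x.2, 0) : V), fun x => ?_, ?_, fun h => ?_⟩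
  · have h1 : ∀ g : E, g.2 = 0 → g ≠ ((x.1 - φ x.2, 0) : V) →
        ‖x - (show E from ((x.1 - φ x.2, 0) : V))‖ < ‖x - g‖ := by
      rintro ⟨g, _⟩ rfl h
      show N (x.1 - (x.1 - φ x.2), x.2 - 0) < N (x.1 - g, x.2 - 0)
      rw [sub_sub_cancel, sub_zero]
      exact N_min _ _ fun h' => h (by rw [← h', sub_sub_cancel])
    have h2 : ‖x - (show E from ((x.1 - φ x.2, 0) : V))‖ =
        infDist x (LinearMap.ker (LinearMap.snd ℝ (ℕ →ᵇ ℝ) (ℝ × ℝ)) : Submodule ℝ E) := by
      refine le_antisymm ((le_infDist ⟨0, Submodule.zero_mem _⟩).2 fun g hg => ?_)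
        ((infDist_le_dist_of_mem (by exact rfl)).trans_eq (dist_eq_norm _ _))
      rw [dist_eq_norm]
      rcases eq_or_ne g ((x.1 - φ x.2, 0) : V) with h | h
      exacts [h ▸ le_rfl, (h1 g hg h).le]
    exact ⟨⟨rfl, h2⟩, fun g hg h => by_contra fun h' => (h1 g hg h').ne (h2.trans h.symm)⟩
  · refine WeakBilin.continuous_of_continuous_eval _ fun f => ?_
    let F : (ℕ →ᵇ ℝ) →L[ℝ] ℝ := f ∘L (iso.symm : V →L[ℝ] E) ∘L ContinuousLinearMap.inl ℝ _ _
    have h1 : ∀ l : V →L[ℝ] ℝ, Continuous fun x : WeakSpace ℝ E => l x := fun l =>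
      WeakBilin.eval_continuous _ (l ∘L (iso : E →L[ℝ] V))
    have := (h1 (F ∘L ContinuousLinearMap.fst ℝ _ _)).sub ((weak_cont F).comp (Continuous.prodMk
      (h1 (ContinuousLinearMap.fst ℝ _ _ ∘L ContinuousLinearMap.snd ℝ _ _))
      (h1 (ContinuousLinearMap.snd ℝ _ _ ∘L ContinuousLinearMap.snd ℝ _ _))))
    exact this.congr fun x => (map_sub F _ _).symm
  · have h1 : Continuous fun t : ℝ => ‖(0 : ℕ →ᵇ ℝ) - φ (1, t)‖ := (iso.continuous.comp
      (h.comp (iso.symm.continuous.comp (f := fun t : ℝ => (0, 1, t)) (by fun_prop)))).fst.norm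
    have h2 := (h1.tendsto 0).comp (tendsto_pow_atTop_nhds_zero_of_lt_one (r := (1 / 2 : ℝ))
      (by norm_num) (by norm_num))
    have h3 : φ (1, 0) = 0 := by
      ext n
      exact med_zero _ _ (Or.inr (mul_zero _))
    refine not_lt.2 (ge_of_tendsto' h2 fun n => le_trans (le_of_eq ?_)
      (norm_coe_le_norm _ n)) (by simp [h3] : _ < (1 : ℝ))
    have : (2 : ℝ) ^ n * (1 / 2) ^ n = 1 := by simp
    simp only [φ, BoundedContinuousFunction.sub_apply, coe_ofNormedAddCommGroupDiscrete, this]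
    norm_num [med]

end Pool.Agent.Results.MP_97ba4e_an.Counter
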